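import Pool.Agent.Y995.LG.Stm
import Pool.Agent.H342R3.Tig.Fin
import Pool.Agent.H342R3.Tig.POL
import Mathlib.MeasureTheory.Measure.Prokhorov

/-!
Project LG: relative compactness in the natural parametrisation.
-/

set_option autoImplicit false

namespace Pool.Agent.Y891.LG

open H984P H984N MeasureTheory Filter Topology
open Pool.Agent.Y995.LG
open scoped ENNReal

/-! ### A compact set of curves -/

/-- functions with a modulus of continuity -/
def FS (δ : ℕ → ℝ) : Set (unitInterval → ℂ) :=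
  {f | (∀ t, ‖f t‖ ≤ 2) ∧ ∀ (j : ℕ) (s t : unitInterval), |(s : ℝ) - t| ≤ δ j →
    dist (f s) (f t) ≤ 4 / ((j : ℝ) + 1)}

theorem fs_small {ε : ℝ} (hε : 0 < ε) : ∃ j : ℕ, 4 / ((j : ℝ) + 1) < ε := by
  obtain ⟨j, hj⟩ := exists_nat_gt (4 / ε)
  refine ⟨j, ?_⟩
  have h1 : (0 : ℝ) < (j : ℝ) + 1 := by positivity
  rw [div_lt_iff₀ hε] at hj
  rw [div_lt_iff₀ h1]
  nlinarith

theorem FS_eq {δ : ℕ → ℝ} {f : unitInterval → ℂ} (hf : f ∈ FS δ) {ε : ℝ} {j : ℕ}
    (hj : 4 / ((j : ℝ) + 1) < ε) {s t : unitInterval} (hs : dist s t < δ j) :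
    dist (f s) (f t) < ε := by
  refine (hf.2 j s t ?_).trans_lt hj
  rw [Subtype.dist_eq, Real.dist_eq] at hs
  exact hs.le

theorem FS_cont {δ : ℕ → ℝ} (hδ : ∀ j, 0 < δ j) {f : unitInterval → ℂ} (hf : f ∈ FS δ) :
    Continuous f := by
  rw [Metric.continuous_iff]
  intro t ε hε
  obtain ⟨j, hj⟩ := fs_small hε
  exact ⟨δ j, hδ j, fun s hs => FS_eq hf hj hs⟩

theorem FS_compact (δ : ℕ → ℝ) : IsCompact (FS δ) := by
  have h1 : FS δ ⊆ Set.pi Set.univ (fun _ => Metric.closedBall (0 : ℂ) 2) := by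
    intro f hf t _
    rw [mem_closedBall_zero_iff]
    exact hf.1 t
  refine (isCompact_univ_pi fun _ => isCompact_closedBall (0 : ℂ) 2).of_isClosed_subset ?_ h1
  have h2 : FS δ = (⋂ t : unitInterval, {f | ‖f t‖ ≤ 2}) ∩ ⋂ j : ℕ, ⋂ s : unitInterval,
      ⋂ t : unitInterval, ⋂ _ : |(s : ℝ) - t| ≤ δ j, {f | dist (f s) (f t) ≤ 4 / ((j : ℝ) + 1)} := by
    ext f
    simp only [FS, Set.mem_ofPred_eq, Set.mem_inter_iff, Set.mem_iInter]
  rw [h2]
  refine IsClosed.inter (isClosed_iInter fun t =>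
    isClosed_le ((continuous_apply t).norm) continuous_const) ?_
  exact isClosed_iInter fun j => isClosed_iInter fun s => isClosed_iInter fun t =>
    isClosed_iInter fun _ =>
      isClosed_le ((continuous_apply s).dist (continuous_apply t)) continuous_const

/-- the compact set -/
def KS (K0 : ℝ) (δ : ℕ → ℝ) : Set X := {p | (p.1 : unitInterval → ℂ) ∈ FS δ ∧ 0 ≤ p.2 ∧ p.2 ≤ K0}

theorem KS_compact (K0 : ℝ) {δ : ℕ → ℝ} (hδ : ∀ j, 0 < δ j) : IsCompact (KS K0 δ) := by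
  set S : Set C(unitInterval, ℂ) := {f | (f : unitInterval → ℂ) ∈ FS δ} with hS
  have hSc : IsCompact S := by
    refine ArzelaAscoli.isCompact_of_equicontinuous S ?_ ?_
    · have : ContinuousMap.toFun '' S = FS δ := by
        ext f
        constructor
        · rintro ⟨g, hg, rfl⟩
          exact hg
        · intro hf
          exact ⟨⟨f, FS_cont hδ hf⟩, hf, rfl⟩
      rw [this]
      exact FS_compact δ
    · intro t
      rw [Metric.equicontinuousAt_iff]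
      intro ε hε
      obtain ⟨j, hj⟩ := fs_small hε
      refine ⟨δ j, hδ j, fun s hs f => ?_⟩
      rw [dist_comm] at hs
      exact FS_eq f.2 hj hs
  have h1 : KS K0 δ = S ×ˢ Set.Icc 0 K0 := by
    ext p
    simp [KS, hS]
  rw [h1]
  exact hSc.prod isCompact_Icc

/-- the curves which violate the modulus of continuity -/
def MB (K0 δ : ℝ) (j : ℕ) : Set X := {p | p.2 < K0 ∧ ∃ s t : unitInterval, |(s : ℝ) - t| ≤ δ ∧
  4 / ((j : ℝ) + 1) < dist (p.1 s) (p.1 t)}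

theorem ev_cont (s : unitInterval) : Continuous (fun p : X => p.1 s) :=
  (continuous_eval_const s).comp continuous_fst

theorem MB_open (K0 δ : ℝ) (j : ℕ) : IsOpen (MB K0 δ j) := by
  have h : MB K0 δ j = {p : X | p.2 < K0} ∩ ⋃ s : unitInterval, ⋃ t : unitInterval,
      ⋃ _ : |(s : ℝ) - t| ≤ δ, {p : X | 4 / ((j : ℝ) + 1) < dist (p.1 s) (p.1 t)} := by
    ext p
    simp only [MB, Set.mem_ofPred_eq, Set.mem_inter_iff, Set.mem_iUnion, exists_prop]
  rw [h]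
  refine (isOpen_lt continuous_snd continuous_const).inter ?_
  exact isOpen_iUnion fun s => isOpen_iUnion fun t => isOpen_iUnion fun _ =>
    isOpen_lt continuous_const ((ev_cont s).dist (ev_cont t))

/-- the points outside the square -/
def ZB : Set X := {p | (∃ t, 2 < ‖p.1 t‖) ∨ p.2 < 0}

theorem ZB_open : IsOpen ZB := by
  have h : ZB = (⋃ t : unitInterval, {p : X | 2 < ‖p.1 t‖}) ∪ {p : X | p.2 < 0} := by
    ext p
    simp only [ZB, Set.mem_ofPred_eq, Set.mem_union, Set.mem_iUnion]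
  rw [h]
  exact (isOpen_iUnion fun t => isOpen_lt continuous_const (ev_cont t).norm).union
    (isOpen_lt continuous_snd continuous_const)

theorem KS_compl (K0 : ℝ) (δ : ℕ → ℝ) :
    (KS K0 δ)ᶜ ⊆ ({p : X | K0 ≤ p.2} ∪ ⋃ j : ℕ, MB K0 (δ j) j) ∪ ZB := by
  intro p hp
  by_contra hcon
  apply hp
  simp only [Set.mem_union, Set.mem_iUnion, not_or, not_exists] at hcon
  obtain ⟨⟨h1, h2⟩, h3⟩ := hcon
  simp only [Set.mem_ofPred_eq, not_le] at h1
  simp only [ZB, Set.mem_ofPred_eq, not_or, not_exists, not_lt] at h3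
  refine ⟨⟨h3.1, fun j s t hst => ?_⟩, h3.2, h1.le⟩
  by_contra h4
  exact h2 j ⟨h1, s, t, hst, not_le.1 h4⟩

/-! ### Deterministic estimates -/

theorem pt_dist (n : ℕ) (u w : ℤ × ℤ) :
    dist (H342L.pt n u) (H342L.pt n w) ≤ 2 * ((sd u w : ℤ) : ℝ) / n := by
  rw [dist_eq_norm]
  refine (Complex.norm_le_abs_re_add_abs_im _).trans ?_
  have e1 : (H342L.pt n u - H342L.pt n w).re = ((u.1 - w.1 : ℤ) : ℝ) / n := by
    unfold H342L.pt
    rw [Complex.sub_re]
    push_cast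
    ring
  have e2 : (H342L.pt n u - H342L.pt n w).im = ((u.2 - w.2 : ℤ) : ℝ) / n := by
    unfold H342L.pt
    rw [Complex.sub_im]
    push_cast
    ring
  rw [e1, e2, abs_div, abs_div, Nat.abs_cast, ← Int.cast_abs, ← Int.cast_abs]
  have h1 : ((|u.1 - w.1| : ℤ) : ℝ) ≤ ((sd u w : ℤ) : ℝ) := by
    exact_mod_cast le_max_left _ _
  have h2 : ((|u.2 - w.2| : ℤ) : ℝ) ≤ ((sd u w : ℤ) : ℝ) := by
    exact_mod_cast le_max_right _ _
  rw [← add_div]
  exact div_le_div_of_nonneg_right (by linarith) (Nat.cast_nonneg n)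

theorem sd_step (F : Set Edge) (σ : St) (j : ℕ) :
    sd (orb F σ j).1 (orb F σ (j + 1)).1 ≤ 1 := by
  rw [orb_succ]
  have h := nxt_fst F (orb F σ j)
  unfold sd
  rw [abs_sub_comm _ (nxt F (orb F σ j)).1.1, abs_sub_comm _ (nxt F (orb F σ j)).1.2]
  exact max_le h.1 h.2

theorem step_dist {n : ℕ} (_hn : 0 < n) (F : Set Edge) (σ : St) (j : ℕ) :
    dist (H342L.pt n (orb F σ j).1) (H342L.pt n (orb F σ (j + 1)).1) ≤ 2 / n := by
  refine (pt_dist n _ _).trans ?_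
  have h1 : ((sd (orb F σ j).1 (orb F σ (j + 1)).1 : ℤ) : ℝ) ≤ 1 := by
    exact_mod_cast sd_step F σ j
  exact div_le_div_of_nonneg_right (by linarith) (Nat.cast_nonneg n)

/-- the lattice time -/
noncomputable def tm (N : ℕ) (s : unitInterval) : ℕ := min ⌊(N : ℝ) * s⌋₊ (N - 1)

theorem tm_spec {N : ℕ} (hN : 0 < N) (s : unitInterval) :
    tm N s < N ∧ ((tm N s : ℕ) : ℝ) ≤ N * (s : ℝ) ∧ (N : ℝ) * s ≤ (tm N s : ℕ) + 1 := by
  have h0 : (0 : ℝ) ≤ N * (s : ℝ) := mul_nonneg (Nat.cast_nonneg N) s.2.1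
  have h1 : ((⌊(N : ℝ) * s⌋₊ : ℕ) : ℝ) ≤ N * (s : ℝ) := Nat.floor_le h0
  have h2 := Nat.lt_floor_add_one ((N : ℝ) * s)
  unfold tm
  refine ⟨?_, ?_, ?_⟩
  · exact lt_of_le_of_lt (min_le_right _ _) (by omega)
  · refine le_trans ?_ h1
    exact_mod_cast min_le_left _ _
  · rcases le_total ⌊(N : ℝ) * s⌋₊ (N - 1) with h | h
    · rw [min_eq_left h]
      exact h2.le
    · rw [min_eq_right h]
      have h3 : ((N - 1 : ℕ) : ℝ) + 1 = N := by
        exact_mod_cast Nat.sub_add_cancel hN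
      rw [h3]
      exact mul_le_of_le_one_right (Nat.cast_nonneg N) s.2.2

theorem tm_mono {N : ℕ} {s t : unitInterval} (h : s ≤ t) : tm N s ≤ tm N t := by
  unfold tm
  apply min_le_min_right
  apply Nat.floor_le_floor
  exact mul_le_mul_of_nonneg_left h (Nat.cast_nonneg N)

theorem poly_near {f : ℕ → ℂ} {N : ℕ} (hN : 0 < N) (s : unitInterval) :
    ∃ x : ℝ, 0 ≤ x ∧ x ≤ 1 ∧ H342T.poly f N s =
      f (tm N s) + (x : ℂ) * (f (tm N s + 1) - f (tm N s)) := by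
  obtain ⟨h1, h2, h3⟩ := tm_spec hN s
  refine ⟨N * (s : ℝ) - (tm N s : ℕ), by linarith, by linarith, ?_⟩
  exact H342T.POL_formula f N (tm N s) h1 s h2 h3

theorem poly_dist {n : ℕ} (hn : 0 < n) (F : Set Edge) (σ : St) {N : ℕ} (hN : 0 < N)
    (s : unitInterval) :
    dist (H342T.poly (fun j => H342L.pt n (orb F σ j).1) N s)
      (H342L.pt n (orb F σ (tm N s)).1) ≤ 2 / n := by
  obtain ⟨x, hx0, hx1, hx⟩ := poly_near (f := fun j => H342L.pt n (orb F σ j).1) hN s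
  rw [hx, dist_eq_norm, add_sub_cancel_left, norm_mul, Complex.norm_real,
    Real.norm_of_nonneg hx0]
  have h1 := step_dist hn F σ (tm N s)
  rw [dist_comm, dist_eq_norm] at h1
  calc x * ‖H342L.pt n (orb F σ (tm N s + 1)).1 - H342L.pt n (orb F σ (tm N s)).1‖
      ≤ 1 * (2 / n) := mul_le_mul hx1 h1 (norm_nonneg _) zero_le_one
    _ = 2 / n := one_mul _

theorem state {F : Finset Edge} {v : ℤ × ℤ} {σ : St} (h1 : σ.1 ∈ H342P.Plain.cluster F v)
    (h2 : H342P.Plain.Outer F v (face σ)) (s : ℕ) :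
    (orb (↑F) σ s).1 ∈ H342P.Plain.cluster F v ∧
      H342P.Plain.Outer F v (face (orb (↑F) σ s)) := by
  rw [H342P.Plain.mem_cluster] at h1 ⊢
  rw [H342P.Plain.outer_iff] at h2 ⊢
  refine ⟨h1.trans (pb_reach (↑F) σ s), ?_⟩
  unfold H342P.Outer at h2 ⊢
  refine ((pb_dreach (↑F) σ s).symm.mono ?_).trans h2
  apply Set.compl_subset_compl.2
  intro e he
  exact he.1

theorem pt_norm {n : ℕ} {u : ℤ × ℤ} (hu : u ∈ H342P.Plain.box n) : ‖H342L.pt n u‖ ≤ 2 := by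
  unfold H342P.Plain.box at hu
  rw [Finset.mem_product, Finset.mem_Icc, Finset.mem_Icc] at hu
  have h1 : |(H342L.pt n u).re| ≤ 1 := by
    show |(u.1 : ℝ) / n| ≤ 1
    rw [abs_div, Nat.abs_cast]
    apply div_le_one_of_le₀ _ (Nat.cast_nonneg n)
    rw [abs_of_nonneg (by exact_mod_cast hu.1.1)]
    exact_mod_cast hu.1.2
  have h2 : |(H342L.pt n u).im| ≤ 1 := by
    show |(u.2 : ℝ) / n| ≤ 1
    rw [abs_div, Nat.abs_cast]
    apply div_le_one_of_le₀ _ (Nat.cast_nonneg n)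
    rw [abs_of_nonneg (by exact_mod_cast hu.2.1)]
    exact_mod_cast hu.2.2
  exact (Complex.norm_le_abs_re_add_abs_im _).trans (by linarith)

/-- all points are in the square -/
theorem not_ZB {n : ℕ} {F : Finset Edge} (hF : F ⊆ H342P.Plain.edges n) {v : ℤ × ℤ}
    (hv : v ∈ H342P.Plain.box n) {p : X} (hp : IsNat n F v p) : p ∉ ZB := by
  obtain ⟨σ, N, hN, hσ, ho, hper, hmin, rfl⟩ := hp
  have hbox : ∀ s, (orb (↑F) σ s).1 ∈ H342P.Plain.box n := by
    intro s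
    exact H342L.CPT_box hF hv (state hσ ho s).1
  rintro (⟨t, ht⟩ | h)
  · obtain ⟨x, hx0, hx1, hx⟩ := poly_near (f := fun j => H342L.pt n (orb (↑F) σ j).1) hN t
    simp only at ht
    rw [hx] at ht
    have h1 := pt_norm (hbox (tm N t))
    have h2 := pt_norm (hbox (tm N t + 1))
    have h3 : H342L.pt n (orb (↑F) σ (tm N t)).1 + (x : ℂ) *
        (H342L.pt n (orb (↑F) σ (tm N t + 1)).1 - H342L.pt n (orb (↑F) σ (tm N t)).1) =
        ((1 - x : ℝ) : ℂ) * H342L.pt n (orb (↑F) σ (tm N t)).1 +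
        (x : ℂ) * H342L.pt n (orb (↑F) σ (tm N t + 1)).1 := by
      push_cast
      ring
    rw [h3] at ht
    have h4 := norm_add_le (((1 - x : ℝ) : ℂ) * H342L.pt n (orb (↑F) σ (tm N t)).1)
      ((x : ℂ) * H342L.pt n (orb (↑F) σ (tm N t + 1)).1)
    rw [norm_mul, norm_mul, Complex.norm_real, Complex.norm_real, Real.norm_of_nonneg hx0,
      Real.norm_of_nonneg (by linarith : 0 ≤ 1 - x)] at h4
    have h5 := mul_le_mul_of_nonneg_left h1 (by linarith : 0 ≤ 1 - x)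
    have h6 := mul_le_mul_of_nonneg_left h2 hx0
    linarith
  · simp only at h
    have : (0 : ℝ) ≤ (N : ℝ) / (n : ℝ) ^ (7/4 : ℝ) := by positivity
    linarith

/-- the modulus of continuity -/
theorem det {n : ℕ} (hn : 0 < n) {F : Finset Edge} {v : ℤ × ℤ} {p : X} (hp : IsNat n F v p)
    {K0 w θ δ : ℝ} (hK0 : 0 < K0) (_hw : 0 < w) (hθ : 0 < θ) (hpK : p.2 < K0)
    (hnw : 2 / (n : ℝ) ≤ w) (hnθ : 2 < θ * (n : ℝ) ^ (7/4 : ℝ)) (hδ : δ ≤ θ / (2 * K0))
    (hbad : ∀ (σ : St) (t : ℕ), σ.1 ∈ H342P.Plain.cluster F v →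
      H342P.Plain.Outer F v (face σ) → w * n ≤ (sd σ.1 (orb (↑F) σ t).1 : ℝ) →
      θ * (n : ℝ) ^ (7/4 : ℝ) ≤ (t : ℝ))
    (s s' : unitInterval) (hs : |(s : ℝ) - s'| ≤ δ) : dist (p.1 s) (p.1 s') ≤ 4 * w := by
  obtain ⟨σ, N, hN, hσ, ho, hper, hmin, rfl⟩ := hp
  simp only at hpK ⊢
  have hn0 : (0 : ℝ) < n := by exact_mod_cast hn
  have hn74 : (0 : ℝ) < (n : ℝ) ^ (7/4 : ℝ) := by positivity
  rw [div_lt_iff₀ hn74] at hpK
  have key : ∀ s s' : unitInterval, s ≤ s' → |(s : ℝ) - s'| ≤ δ →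
      dist (H342T.poly (fun j => H342L.pt n (orb (↑F) σ j).1) N s)
        (H342T.poly (fun j => H342L.pt n (orb (↑F) σ j).1) N s') ≤ 4 * w := by
    intro s s' hss hs
    obtain ⟨a1, a2, a3⟩ := tm_spec hN s
    obtain ⟨b1, b2, b3⟩ := tm_spec hN s'
    have hab : tm N s ≤ tm N s' := tm_mono hss
    obtain ⟨k, hk⟩ := Nat.exists_eq_add_of_le hab
    have hss' : (s : ℝ) ≤ s' := hss
    have h1 : (k : ℝ) ≤ N * δ + 1 := by
      have h2 : ((tm N s' : ℕ) : ℝ) = (tm N s : ℕ) + (k : ℝ) := by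
        rw [hk]
        push_cast
        ring
      rw [abs_sub_comm, abs_of_nonneg (by linarith)] at hs
      have h3 : (N : ℝ) * (s' - s) ≤ N * δ := mul_le_mul_of_nonneg_left hs (Nat.cast_nonneg N)
      linarith
    have h2 : (N : ℝ) * δ ≤ θ * (n : ℝ) ^ (7/4 : ℝ) / 2 := by
      have h3 : (N : ℝ) * δ ≤ N * (θ / (2 * K0)) :=
        mul_le_mul_of_nonneg_left hδ (Nat.cast_nonneg N)
      have h4 : (N : ℝ) * (θ / (2 * K0)) ≤ (K0 * (n : ℝ) ^ (7/4 : ℝ)) * (θ / (2 * K0)) :=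
        mul_le_mul_of_nonneg_right hpK.le (by positivity)
      refine (h3.trans h4).trans (le_of_eq ?_)
      field_simp
    have h3 : ¬ (w * n ≤ (sd (orb (↑F) σ (tm N s)).1
        (orb (↑F) (orb (↑F) σ (tm N s)) k).1 : ℝ)) := by
      intro h4
      obtain ⟨h5, h6⟩ := state hσ ho (tm N s)
      have h7 := hbad _ k h5 h6 h4
      linarith
    rw [not_le, ← orb_add, add_comm k, ← hk] at h3
    have h4 : dist (H342L.pt n (orb (↑F) σ (tm N s)).1) (H342L.pt n (orb (↑F) σ (tm N s')).1) ≤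
        2 * w := by
      refine (pt_dist n _ _).trans ?_
      rw [div_le_iff₀ hn0]
      linarith
    have h5 := poly_dist hn (↑F) σ hN s
    have h6 := poly_dist hn (↑F) σ hN s'
    rw [dist_comm] at h6
    have h7 := dist_triangle4 (H342T.poly (fun j => H342L.pt n (orb (↑F) σ j).1) N s)
      (H342L.pt n (orb (↑F) σ (tm N s)).1) (H342L.pt n (orb (↑F) σ (tm N s')).1)
      (H342T.poly (fun j => H342L.pt n (orb (↑F) σ j).1) N s')
    linarith
  rcases le_total s s' with h | h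
  · exact key s s' h hs
  · rw [dist_comm]
    rw [abs_sub_comm] at hs
    exact key s' s h hs

/-! ### Probability -/

theorem prob_zero (n : ℕ) {A : Finset Edge → Prop} (h : ∀ F, F ⊆ H342P.Plain.edges n → ¬ A F) :
    H342P.Plain.prob n A ≤ 0 := by
  have h1 : H342P.Plain.prob n A ≤ H342P.Plain.prob n (fun _ => ¬ True) :=
    H342L.prob_mono (fun F hF hA => absurd hA (h F hF))
  have h2 := H342P.Plain.prob_not n (fun _ => True)
  rw [H342L.prob_true, sub_self] at h2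
  exact h1.trans h2.le

variable {sel : (n : ℕ) → Finset Edge → ℤ × ℤ} {f : (n : ℕ) → Finset Edge → X}

theorem claim0 (hU : S_UPN) (hsf : Sel sel f) {ε : ℝ} (hε : 0 < ε) : ∃ K0 : ℝ, 0 < K0 ∧
    ∀ n, 0 < n → H342P.Plain.prob n (fun F => K0 ≤ (f n F).2) ≤ ε := by
  classical
  obtain ⟨K, n0, hK, hn0⟩ := hU ε hε
  obtain ⟨B, hB⟩ : ∃ B : ℝ, B = ∑ n ∈ Finset.range n0,
      ∑ F ∈ (H342P.Plain.edges n).powerset, |(f n F).2| := ⟨_, rfl⟩
  have hB0 : 0 ≤ B := by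
    rw [hB]
    exact Finset.sum_nonneg fun _ _ => Finset.sum_nonneg fun _ _ => abs_nonneg _
  refine ⟨K + B + 1, by positivity, fun n hn => ?_⟩
  rcases lt_or_ge n n0 with h | h
  · refine (prob_zero n ?_).trans hε.le
    intro F hF hle
    have h1 : |(f n F).2| ≤ B := by
      refine (Finset.single_le_sum (f := fun F => |(f n F).2|) (fun _ _ => abs_nonneg _)
        (Finset.mem_powerset.2 hF)).trans ?_
      rw [hB]
      exact Finset.single_le_sum (f := fun n => ∑ F ∈ (H342P.Plain.edges n).powerset, |(f n F).2|)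
        (fun _ _ => Finset.sum_nonneg fun _ _ => abs_nonneg _) (Finset.mem_range.2 h)
    have h2 := le_abs_self (f n F).2
    linarith
  · refine (H342L.prob_mono fun F hF hle => ?_).trans (hn0 n h)
    exact ⟨sel n F, f n F, hsf.big n F hn hF, hsf.nat n F hn hF, by linarith⟩

theorem uc (c : C(unitInterval, ℂ)) {ε : ℝ} (hε : 0 < ε) : ∀ᶠ δ in 𝓝[>] (0 : ℝ),
    ∀ s t : unitInterval, |(s : ℝ) - t| ≤ δ → dist (c s) (c t) ≤ ε := by
  have h := CompactSpace.uniformContinuous_of_continuous c.continuous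
  rw [Metric.uniformContinuous_iff] at h
  obtain ⟨r, hr, h⟩ := h ε hε
  filter_upwards [Ioo_mem_nhdsGT hr] with δ hδ s t hst
  refine (h ?_).le
  rw [Subtype.dist_eq, Real.dist_eq]
  exact hst.trans_lt hδ.2

theorem claimj (hM : S_MOD) (hsf : Sel sel f) {K0 : ℝ} (hK0 : 0 < K0) {ε : ℝ} (hε : 0 < ε)
    (j : ℕ) : ∃ δ : ℝ, 0 < δ ∧
    ∀ n, 0 < n → H342P.Plain.prob n (fun F => f n F ∈ MB K0 δ j) ≤ ε := by
  classical
  obtain ⟨w, hwd⟩ : ∃ w : ℝ, w = 1 / ((j : ℝ) + 1) := ⟨_, rfl⟩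
  have hw : 0 < w := by rw [hwd]; positivity
  obtain ⟨θ, n0, hθ, hn0⟩ := hM w ε hw hε
  have hlim : Tendsto (fun n : ℕ => θ * (n : ℝ) ^ (7/4 : ℝ)) atTop atTop :=
    Tendsto.const_mul_atTop hθ ((tendsto_rpow_atTop (by norm_num)).comp
      tendsto_natCast_atTop_atTop)
  obtain ⟨n1, hn1⟩ := eventually_atTop.1 (hlim.eventually_gt_atTop 2)
  obtain ⟨n2, hn2⟩ := exists_nat_gt (2 / w)
  obtain ⟨n3, hn3⟩ : ∃ n3 : ℕ, n3 = max (max n0 n1) n2 := ⟨_, rfl⟩
  have hev : ∀ᶠ δ in 𝓝[>] (0 : ℝ), ∀ n ∈ Finset.range n3, ∀ F ∈ (H342P.Plain.edges n).powerset,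
      ∀ s t : unitInterval, |(s : ℝ) - t| ≤ δ →
        dist ((f n F).1 s) ((f n F).1 t) ≤ 4 / ((j : ℝ) + 1) := by
    rw [Filter.eventually_all_finset]
    intro n _
    rw [Filter.eventually_all_finset]
    intro F _
    exact uc _ (by positivity)
  have hev2 : ∀ᶠ δ in 𝓝[>] (0 : ℝ), δ ≤ θ / (2 * K0) := by
    filter_upwards [Ioo_mem_nhdsGT (by positivity : 0 < θ / (2 * K0))] with δ hδ using hδ.2.le
  have hev3 : ∀ᶠ δ in 𝓝[>] (0 : ℝ), 0 < δ := self_mem_nhdsWithin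
  obtain ⟨δ, ⟨hδ1, hδ2⟩, hδ0⟩ := ((hev.and hev2).and hev3).exists
  refine ⟨δ, hδ0, fun n hn => ?_⟩
  rcases lt_or_ge n n3 with h | h
  · refine (prob_zero n ?_).trans hε.le
    rintro F hF ⟨-, s, t, hst, hlt⟩
    exact absurd (hδ1 n (Finset.mem_range.2 h) F (Finset.mem_powerset.2 hF) s t hst)
      (not_le.2 hlt)
  · have h0 : n0 ≤ n := ((le_max_left _ _).trans (le_max_left _ _)).trans (hn3 ▸ h)
    have h1 : n1 ≤ n := ((le_max_right _ _).trans (le_max_left _ _)).trans (hn3 ▸ h)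
    have h2 : n2 ≤ n := (le_max_right _ _).trans (hn3 ▸ h)
    refine (H342L.prob_mono fun F hF hmem => ?_).trans (hn0 n h0)
    by_contra hcon
    obtain ⟨hK, s, t, hst, hlt⟩ := hmem
    have hn' : (0 : ℝ) < n := by exact_mod_cast hn
    have h3 : 2 / (n : ℝ) ≤ w := by
      have h4 : (n2 : ℝ) ≤ n := by exact_mod_cast h2
      rw [div_lt_iff₀ hw] at hn2
      rw [div_le_iff₀ hn']
      nlinarith
    have h4 := det hn (hsf.nat n F hn hF) hK0 hw hθ hK h3 (hn1 n h1) hδ2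
      (fun σ t h5 h6 h7 => by
        by_contra h8
        exact hcon ⟨sel n F, σ, t, hsf.big n F hn hF, h5, h6, h7, not_le.1 h8⟩) s t hst
    have h5 : 4 * w = 4 / ((j : ℝ) + 1) := by
      rw [hwd]
      ring
    rw [h5] at h4
    exact absurd hlt (not_lt.2 h4)

theorem comp_set (hM : S_MOD) (hU : S_UPN) (hsf : Sel sel f) {ε : ℝ} (hε : 0 < ε) :
    ∃ K : Set X, IsCompact K ∧
      ∀ n, 0 < n → (H342L.lawOf n (f n) : Measure X) Kᶜ ≤ ENNReal.ofReal ε := by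
  obtain ⟨K0, hK0, hc0⟩ := claim0 hU hsf (half_pos hε)
  have hj : ∀ j : ℕ, ∃ δ : ℝ, 0 < δ ∧ ∀ n, 0 < n →
      H342P.Plain.prob n (fun F => f n F ∈ MB K0 δ j) ≤ ε / 2 * (1 / 2) ^ (j + 1) :=
    fun j => claimj hM hsf hK0 (by positivity) j
  choose δ hδ hcj using hj
  refine ⟨KS K0 δ, KS_compact K0 hδ, fun n hn => ?_⟩
  have m1 : (H342L.lawOf n (f n) : Measure X) {p : X | K0 ≤ p.2} ≤ ENNReal.ofReal (ε / 2) := by
    rw [H342L.lawOf_apply _ _ (isClosed_le continuous_const continuous_snd).measurableSet]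
    exact ENNReal.ofReal_le_ofReal (hc0 n hn)
  have m2 : (H342L.lawOf n (f n) : Measure X) (⋃ j : ℕ, MB K0 (δ j) j) ≤
      ENNReal.ofReal (ε / 2) := by
    refine (measure_iUnion_le _).trans ?_
    have h1 : ∀ j : ℕ, (H342L.lawOf n (f n) : Measure X) (MB K0 (δ j) j) ≤
        ENNReal.ofReal (ε / 2 * (1 / 2) ^ (j + 1)) := by
      intro j
      rw [H342L.lawOf_apply _ _ (MB_open _ _ _).measurableSet]
      exact ENNReal.ofReal_le_ofReal (hcj j n hn)
    refine (ENNReal.tsum_le_tsum h1).trans ?_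
    have h2 : ∀ j : ℕ, ε / 2 * (1 / 2) ^ (j + 1) = ε / 4 * (1 / 2 : ℝ) ^ j := by
      intro j
      rw [pow_succ]
      ring
    simp_rw [h2]
    have h3 : Summable (fun j : ℕ => ε / 4 * (1 / 2 : ℝ) ^ j) :=
      summable_geometric_two.mul_left _
    rw [← ENNReal.ofReal_tsum_of_nonneg (fun j => by positivity) h3, tsum_mul_left,
      tsum_geometric_two]
    apply ENNReal.ofReal_le_ofReal
    linarith
  have m3 : (H342L.lawOf n (f n) : Measure X) ZB ≤ 0 := by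
    rw [H342L.lawOf_apply _ _ ZB_open.measurableSet, ← ENNReal.ofReal_zero]
    apply ENNReal.ofReal_le_ofReal
    apply prob_zero
    intro F hF
    exact not_ZB hF (hsf.big n F hn hF).1 (hsf.nat n F hn hF)
  calc (H342L.lawOf n (f n) : Measure X) (KS K0 δ)ᶜ
      ≤ (H342L.lawOf n (f n) : Measure X)
        (({p : X | K0 ≤ p.2} ∪ ⋃ j : ℕ, MB K0 (δ j) j) ∪ ZB) := measure_mono (KS_compl K0 δ)
    _ ≤ (ENNReal.ofReal (ε / 2) + ENNReal.ofReal (ε / 2)) + 0 :=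
        (measure_union_le _ _).trans (add_le_add ((measure_union_le _ _).trans
          (add_le_add m1 m2)) m3)
    _ = ENNReal.ofReal ε := by
        rw [add_zero, ← ENNReal.ofReal_add (by positivity) (by positivity), add_halves]

theorem tight (hM : S_MOD) (hU : S_UPN) : S_TIGHT := by
  intro sel f hsf k hk
  obtain ⟨N, hN⟩ := (tendsto_atTop.mp hk 1).exists_forall_of_atTop
  have htight : IsTightMeasureSet {((ν : ProbabilityMeasure X) : Measure X) |
      ν ∈ Set.range (fun i => H342L.lawOf (k (i + N)) (f (k (i + N))))} := by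
    rw [isTightMeasureSet_iff_exists_isCompact_measure_compl_le]
    intro ε hε
    by_cases htop : ε = ⊤
    · exact ⟨∅, isCompact_empty, fun ν _ => by rw [htop]; exact le_top⟩
    · obtain ⟨K, hK, hKn⟩ := comp_set hM hU hsf (ENNReal.toReal_pos hε.ne' htop)
      refine ⟨K, hK, ?_⟩
      rintro ν ⟨ν', ⟨i, rfl⟩, rfl⟩
      exact (hKn _ (hN (i + N) (by omega))).trans (ENNReal.ofReal_toReal htop).le
  have hcomp := isCompact_closure_of_isTightMeasureSet htight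
  obtain ⟨μ, _, φ, hφ, hμ⟩ := hcomp.tendsto_subseq
    (x := fun i => H342L.lawOf (k (i + N)) (f (k (i + N)))) (fun i => subset_closure ⟨i, rfl⟩)
  exact ⟨fun i => φ i + N, μ, fun i j hij => by have := hφ hij; simp only; omega, hμ⟩

end Pool.Agent.Y891.LG
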